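import Pool.Agent.X123.NC.Dim

/-!
# Counting near-coincidences between a sequence and the powers of a complex number
-/

set_option autoImplicit false

namespace Pool.Agent.X123.NC

/-- the pairs `(n, m)` with `|u_n - β^m| ≤ x` -/
def pairs (u : ℕ → ℂ) (β : ℂ) (x : ℝ) : Set (ℕ × ℕ) := {p | ‖u p.1 - β ^ p.2‖ ≤ x}

theorem one_lt_log {x : ℝ} (hx : 3 ≤ x) : 1 ≤ Real.log x := by
  rw [Real.le_log_iff_exp_le (by linarith)]
  have := Real.exp_one_lt_d9
  linarith

theorem log_le_lin {η y : ℝ} (hη : 0 < η) (hy : 0 < y) :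
    Real.log y ≤ η * y + |Real.log η| := by
  have h1 := Real.add_one_le_exp (Real.log (η * y))
  rw [Real.exp_log (by positivity), Real.log_mul hη.ne' hy.ne'] at h1
  have h2 := neg_abs_le (Real.log η)
  linarith

/-- the upper bound -/
theorem upper {u : ℕ → ℂ} {β : ℂ} {a B : ℝ} (ha : 1 < a) (hβ : 1 < ‖β‖) (hB : 0 ≤ B)
    (hu : ∀ n : ℕ, |Real.log ‖u n‖ - n * Real.log a| ≤ B * Real.log ((n : ℝ) + 2)) {K M : ℕ}
    (hM : ∀ n m : ℕ, M ≤ n + m → 1 ≤ m → ‖β‖ ^ m ≤ ‖u n - β ^ m‖ * ((n : ℝ) + m + 1) ^ K) :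
    ∃ C : ℝ, ∀ x : ℝ, 3 ≤ x → (pairs u β x).Finite ∧ ((pairs u β x).ncard : ℝ) ≤
      Real.log x ^ 2 / (Real.log a * Real.log ‖β‖) +
        C * (Real.log x * (1 + Real.log (Real.log x))) := by
  classical
  obtain ⟨la, hla⟩ : ∃ la : ℝ, la = Real.log a := ⟨_, rfl⟩
  obtain ⟨lb, hlb⟩ : ∃ lb : ℝ, lb = Real.log ‖β‖ := ⟨_, rfl⟩
  have hla0 : 0 < la := by rw [hla]; exact Real.log_pos ha
  have hlb0 : 0 < lb := by rw [hlb]; exact Real.log_pos hβ
  rw [← hla] at hu ⊢
  rw [← hlb]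
  obtain ⟨δ, hδ⟩ : ∃ δ : ℝ, δ = min la lb := ⟨_, rfl⟩
  have hδ0 : 0 < δ := by rw [hδ]; exact lt_min hla0 hlb0
  have hδa : δ ≤ la := by rw [hδ]; exact min_le_left _ _
  have hδb : δ ≤ lb := by rw [hδ]; exact min_le_right _ _
  obtain ⟨c₁, hc₁⟩ : ∃ c₁ : ℝ, c₁ = K + B := ⟨_, rfl⟩
  have hc₁0 : 0 ≤ c₁ := by rw [hc₁]; positivity
  obtain ⟨η, hη⟩ : ∃ η : ℝ, η = δ / (4 * (c₁ + 1)) := ⟨_, rfl⟩
  have hη0 : 0 < η := by rw [hη]; positivity
  obtain ⟨e, he⟩ : ∃ e : ℝ, e = |Real.log η| := ⟨_, rfl⟩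
  have he0 : 0 ≤ e := by rw [he]; exact abs_nonneg _
  obtain ⟨C₁, hC₁⟩ : ∃ C₁ : ℝ, C₁ = 2 / δ * (4 + 2 * δ + 2 * c₁ * e) := ⟨_, rfl⟩
  have hC₁0 : 0 < C₁ := by rw [hC₁]; positivity
  obtain ⟨C₂, hC₂⟩ : ∃ C₂ : ℝ, C₂ = 1 + c₁ * |Real.log C₁| + c₁ := ⟨_, rfl⟩
  have hC₂0 : 0 < C₂ := by rw [hC₂]; positivity
  refine ⟨(2 * C₂ + C₂ ^ 2) / (la * lb) + (1 + C₂) / la + (1 + C₂) / lb + 1 + (M : ℝ) ^ 2,
    fun x hx => ?_⟩
  obtain ⟨L, hL⟩ : ∃ L : ℝ, L = Real.log x := ⟨_, rfl⟩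
  have hL1 : 1 ≤ L := by rw [hL]; exact one_lt_log hx
  rw [← hL]
  obtain ⟨l, hl⟩ : ∃ l : ℝ, l = 1 + Real.log L := ⟨_, rfl⟩
  have hl1 : 1 ≤ l := by rw [hl]; linarith [Real.log_nonneg hL1]
  have hlL : l ≤ L := by rw [hl]; linarith [Real.log_le_sub_one_of_pos (by linarith : 0 < L)]
  rw [← hl]
  have hx0 : 0 < x := by linarith
  -- the basic inequalities
  have hbasic : ∀ n m : ℕ, (n, m) ∈ pairs u β x → M ≤ n + m →
      (n : ℝ) * la ≤ L + C₂ * l ∧ (m : ℝ) * lb ≤ L + C₂ * l := by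
    intro n m hp hnm
    have hp' : ‖u n - β ^ m‖ ≤ x := hp
    obtain ⟨y, hy⟩ : ∃ y : ℝ, y = (n : ℝ) + m + 2 := ⟨_, rfl⟩
    have hn0 : (0 : ℝ) ≤ n := Nat.cast_nonneg n
    have hm0 : (0 : ℝ) ≤ m := Nat.cast_nonneg m
    have hy2 : 2 ≤ y := by rw [hy]; linarith
    have hy0 : 0 < y := by linarith
    have hlogy : 0 ≤ Real.log y := Real.log_nonneg (by linarith)
    have hyK : 1 ≤ y ^ K := one_le_pow₀ (by linarith)
    have h1 : ‖β‖ ^ m ≤ x * y ^ K := by
      rcases Nat.eq_zero_or_pos m with h0 | h0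
      · rw [h0, pow_zero]
        nlinarith
      · refine (hM n m hnm h0).trans ?_
        have h2 : ((n : ℝ) + m + 1) ^ K ≤ y ^ K :=
          pow_le_pow_left₀ (by positivity) (by rw [hy]; linarith) K
        exact mul_le_mul hp' h2 (by positivity) hx0.le
    have hlm : (m : ℝ) * lb ≤ L + K * Real.log y := by
      have h2 := Real.log_le_log (by positivity) h1
      rw [Real.log_pow, Real.log_mul hx0.ne' (by positivity), Real.log_pow] at h2
      rw [hL, hlb]
      exact h2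
    have h3 : ‖u n‖ ≤ 2 * (x * y ^ K) := by
      have h4 : u n = (u n - β ^ m) + β ^ m := by ring
      have h5 : ‖u n‖ ≤ ‖u n - β ^ m‖ + ‖β‖ ^ m := by
        rw [← norm_pow]
        calc ‖u n‖ = ‖(u n - β ^ m) + β ^ m‖ := by rw [← h4]
          _ ≤ _ := norm_add_le _ _
      nlinarith
    have hln : Real.log ‖u n‖ ≤ Real.log 2 + L + K * Real.log y := by
      rcases eq_or_lt_of_le (norm_nonneg (u n)) with h0 | h0
      · rw [← h0, Real.log_zero]
        have := Real.log_nonneg (by norm_num : (1 : ℝ) ≤ 2)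
        positivity
      · have h2 := Real.log_le_log h0 h3
        rw [Real.log_mul (by norm_num) (by positivity), Real.log_mul hx0.ne' (by positivity),
          Real.log_pow, ← hL] at h2
        linarith
    have hlog2 : Real.log 2 ≤ 1 := by
      have := Real.log_two_lt_d9
      linarith
    have hna : (n : ℝ) * la ≤ L + 1 + c₁ * Real.log y := by
      have h4 := (abs_le.1 (hu n)).1
      have h5 : Real.log ((n : ℝ) + 2) ≤ Real.log y :=
        Real.log_le_log (by positivity) (by rw [hy]; linarith)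
      have h6 := mul_le_mul_of_nonneg_left h5 hB
      rw [hc₁]
      nlinarith
    have hma : (m : ℝ) * lb ≤ L + 1 + c₁ * Real.log y := by
      have h6 : 0 ≤ B * Real.log y := mul_nonneg hB hlogy
      rw [hc₁]
      nlinarith
    -- the bound of `y`
    have hyL : y ≤ C₁ * L := by
      have h4 : (n : ℝ) * δ ≤ n * la := mul_le_mul_of_nonneg_left hδa hn0
      have h5 : (m : ℝ) * δ ≤ m * lb := mul_le_mul_of_nonneg_left hδb hm0
      have h6 : y * δ ≤ 2 * L + 2 + 2 * δ + 2 * c₁ * Real.log y := by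
        have e6 : y * δ = n * δ + m * δ + 2 * δ := by rw [hy]; ring
        rw [e6]
        linarith
      have h7 := log_le_lin hη0 hy0
      rw [← he] at h7
      have h8 : 2 * c₁ * Real.log y ≤ 2 * c₁ * (η * y + e) :=
        mul_le_mul_of_nonneg_left h7 (by positivity)
      have h9 : 2 * c₁ * η ≤ δ / 2 := by
        rw [hη]
        have h10 : 2 * c₁ * (δ / (4 * (c₁ + 1))) = δ / 2 * (c₁ / (c₁ + 1)) := by
          field_simp
          ring
        rw [h10]
        have h11 : c₁ / (c₁ + 1) ≤ 1 := by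
          rw [div_le_one (by positivity)]
          linarith
        have := mul_le_mul_of_nonneg_left h11 (by positivity : 0 ≤ δ / 2)
        linarith
      have h12 := mul_le_mul_of_nonneg_right h9 hy0.le
      have h13 : y * δ ≤ 2 * (2 * L + 2 + 2 * δ + 2 * c₁ * e) := by
        have e13 : 2 * c₁ * (η * y + e) = 2 * c₁ * η * y + 2 * c₁ * e := by ring
        rw [e13] at h8
        linarith
      have h14 : 2 * L + 2 + 2 * δ + 2 * c₁ * e ≤ (4 + 2 * δ + 2 * c₁ * e) * L := by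
        have h15 : 0 ≤ 2 * δ + 2 * c₁ * e := by positivity
        have h16 := mul_le_mul_of_nonneg_left hL1 h15
        linarith
      have h16 : y * δ ≤ C₁ * L * δ := by
        have h17 : C₁ * L * δ = 2 * ((4 + 2 * δ + 2 * c₁ * e) * L) := by
          rw [hC₁]
          field_simp
        rw [h17]
        linarith
      exact le_of_mul_le_mul_right h16 hδ0
    have hlogy2 : c₁ * Real.log y ≤ c₁ * |Real.log C₁| + c₁ * Real.log L := by
      have h4 := Real.log_le_log hy0 hyL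
      rw [Real.log_mul hC₁0.ne' (by linarith)] at h4
      have h5 := le_abs_self (Real.log C₁)
      rw [← mul_add]
      exact mul_le_mul_of_nonneg_left (by linarith) hc₁0
    have hfin : 1 + c₁ * Real.log y ≤ C₂ * l := by
      have h4 : 0 ≤ Real.log L := Real.log_nonneg hL1
      have h5 : 0 ≤ c₁ * |Real.log C₁| := by positivity
      have h6 : 0 ≤ c₁ * |Real.log C₁| * Real.log L := mul_nonneg h5 h4
      have e6 : C₂ * l = 1 + c₁ * |Real.log C₁| + c₁ + (Real.log L + c₁ * |Real.log C₁| *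
          Real.log L + c₁ * Real.log L) := by
        rw [hC₂, hl]
        ring
      rw [e6]
      linarith
    exact ⟨by linarith, by linarith⟩
  -- the box
  obtain ⟨P, hP⟩ : ∃ P : ℝ, P = (L + C₂ * l) / la := ⟨_, rfl⟩
  obtain ⟨Q, hQ⟩ : ∃ Q : ℝ, Q = (L + C₂ * l) / lb := ⟨_, rfl⟩
  have hLR : 0 ≤ L + C₂ * l := by positivity
  have hP0 : 0 ≤ P := by rw [hP]; positivity
  have hQ0 : 0 ≤ Q := by rw [hQ]; positivity
  obtain ⟨F, hF⟩ : ∃ F : Finset (ℕ × ℕ), F =
      (Finset.range (⌊P⌋₊ + 1) ×ˢ Finset.range (⌊Q⌋₊ + 1)) ∪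
        (Finset.range M ×ˢ Finset.range M) := ⟨_, rfl⟩
  have hsub : pairs u β x ⊆ (F : Set (ℕ × ℕ)) := by
    rintro ⟨n, m⟩ hp
    rw [hF, Finset.mem_coe, Finset.mem_union, Finset.mem_product, Finset.mem_product,
      Finset.mem_range, Finset.mem_range, Finset.mem_range, Finset.mem_range]
    rcases lt_or_ge (n + m) M with h | h
    · right
      constructor
      · change n < M
        omega
      · change m < M
        omega
    · left
      obtain ⟨h1, h2⟩ := hbasic n m hp h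
      constructor
      · change n < ⌊P⌋₊ + 1
        apply Nat.lt_succ_of_le
        apply Nat.le_floor
        rw [hP, le_div_iff₀ hla0]
        exact h1
      · change m < ⌊Q⌋₊ + 1
        apply Nat.lt_succ_of_le
        apply Nat.le_floor
        rw [hQ, le_div_iff₀ hlb0]
        exact h2
  refine ⟨F.finite_toSet.subset hsub, ?_⟩
  have hcard : ((pairs u β x).ncard : ℝ) ≤ (P + 1) * (Q + 1) + (M : ℝ) ^ 2 := by
    have h1 := Set.ncard_le_ncard hsub F.finite_toSet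
    rw [Set.ncard_coe_finset] at h1
    have h2 : F.card ≤ (⌊P⌋₊ + 1) * (⌊Q⌋₊ + 1) + M * M := by
      rw [hF]
      refine (Finset.card_union_le _ _).trans ?_
      rw [Finset.card_product, Finset.card_product, Finset.card_range, Finset.card_range,
        Finset.card_range]
    have h3 : ((pairs u β x).ncard : ℝ) ≤ ((⌊P⌋₊ : ℝ) + 1) * ((⌊Q⌋₊ : ℝ) + 1) + M * M := by
      exact_mod_cast h1.trans h2
    have h4 := Nat.floor_le hP0
    have h5 := Nat.floor_le hQ0
    have h6 : ((⌊P⌋₊ : ℝ) + 1) * ((⌊Q⌋₊ : ℝ) + 1) ≤ (P + 1) * (Q + 1) :=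
      mul_le_mul (by linarith) (by linarith) (by positivity) (by positivity)
    linarith [sq (M : ℝ)]
  refine hcard.trans ?_
  have hLl : 1 ≤ L * l := by nlinarith
  have hexp : (P + 1) * (Q + 1) = (L + C₂ * l) ^ 2 / (la * lb) + (L + C₂ * l) / la +
      (L + C₂ * l) / lb + 1 := by
    rw [hP, hQ]
    field_simp
    ring
  have hsq : (L + C₂ * l) ^ 2 ≤ L ^ 2 + (2 * C₂ + C₂ ^ 2) * (L * l) := by
    have h1 : l ^ 2 ≤ L * l := by nlinarith
    have h2 := mul_le_mul_of_nonneg_left h1 (sq_nonneg C₂)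
    nlinarith
  have hlin : L + C₂ * l ≤ (1 + C₂) * (L * l) := by
    have h1 : L ≤ L * l := by nlinarith
    have h2 : l ≤ L * l := by nlinarith
    have h3 := mul_le_mul_of_nonneg_left h2 hC₂0.le
    linarith
  have t1 : (L + C₂ * l) ^ 2 / (la * lb) ≤
      L ^ 2 / (la * lb) + (2 * C₂ + C₂ ^ 2) / (la * lb) * (L * l) := by
    have h1 := div_le_div_of_nonneg_right hsq (mul_pos hla0 hlb0).le
    have h2 : (L ^ 2 + (2 * C₂ + C₂ ^ 2) * (L * l)) / (la * lb) =
      L ^ 2 / (la * lb) + (2 * C₂ + C₂ ^ 2) / (la * lb) * (L * l) := by ring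
    linarith
  have t2 : (L + C₂ * l) / la ≤ (1 + C₂) / la * (L * l) := by
    have h1 := div_le_div_of_nonneg_right hlin hla0.le
    have h2 : (1 + C₂) * (L * l) / la = (1 + C₂) / la * (L * l) := by ring
    linarith
  have t3 : (L + C₂ * l) / lb ≤ (1 + C₂) / lb * (L * l) := by
    have h1 := div_le_div_of_nonneg_right hlin hlb0.le
    have h2 : (1 + C₂) * (L * l) / lb = (1 + C₂) / lb * (L * l) := by ring
    linarith
  have t4 : (M : ℝ) ^ 2 ≤ (M : ℝ) ^ 2 * (L * l) := by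
    have := mul_le_mul_of_nonneg_left hLl (sq_nonneg (M : ℝ))
    linarith
  rw [hexp]
  have hfinal : ((2 * C₂ + C₂ ^ 2) / (la * lb) + (1 + C₂) / la + (1 + C₂) / lb + 1 +
      (M : ℝ) ^ 2) * (L * l) = (2 * C₂ + C₂ ^ 2) / (la * lb) * (L * l) +
      (1 + C₂) / la * (L * l) + (1 + C₂) / lb * (L * l) + L * l + (M : ℝ) ^ 2 * (L * l) := by
    ring
  rw [hfinal]
  linarith

/-- the lower bound -/
theorem lower {u : ℕ → ℂ} {β : ℂ} {a B : ℝ} (ha : 1 < a) (hβ : 1 < ‖β‖) (hB : 0 ≤ B)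
    (hu : ∀ n : ℕ, |Real.log ‖u n‖ - n * Real.log a| ≤ B * Real.log ((n : ℝ) + 2)) :
    ∃ C : ℝ, ∀ x : ℝ, 3 ≤ x → (pairs u β x).Finite →
      Real.log x ^ 2 / (Real.log a * Real.log ‖β‖) -
        C * (Real.log x * (1 + Real.log (Real.log x))) ≤ ((pairs u β x).ncard : ℝ) := by
  classical
  obtain ⟨la, hla⟩ : ∃ la : ℝ, la = Real.log a := ⟨_, rfl⟩
  obtain ⟨lb, hlb⟩ : ∃ lb : ℝ, lb = Real.log ‖β‖ := ⟨_, rfl⟩
  have hla0 : 0 < la := by rw [hla]; exact Real.log_pos ha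
  have hlb0 : 0 < lb := by rw [hlb]; exact Real.log_pos hβ
  rw [← hla] at hu ⊢
  rw [← hlb]
  obtain ⟨C₅, hC₅⟩ : ∃ C₅ : ℝ, C₅ = Real.log (1 / la + 2) := ⟨_, rfl⟩
  have hC₅0 : 0 ≤ C₅ := by
    rw [hC₅]
    apply Real.log_nonneg
    have : 0 < 1 / la := by positivity
    linarith
  obtain ⟨C₄, hC₄⟩ : ∃ C₄ : ℝ, C₄ = 1 + B * (C₅ + 1) := ⟨_, rfl⟩
  have hC₄0 : 0 < C₄ := by rw [hC₄]; positivity
  have hC₄1 : 1 ≤ C₄ := by
    rw [hC₄]
    have : 0 ≤ B * (C₅ + 1) := by positivity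
    linarith
  refine ⟨2 * C₄ / (la * lb), fun x hx hfin => ?_⟩
  obtain ⟨L, hL⟩ : ∃ L : ℝ, L = Real.log x := ⟨_, rfl⟩
  have hL1 : 1 ≤ L := by rw [hL]; exact one_lt_log hx
  rw [← hL]
  obtain ⟨l, hl⟩ : ∃ l : ℝ, l = 1 + Real.log L := ⟨_, rfl⟩
  have hl1 : 1 ≤ l := by rw [hl]; linarith [Real.log_nonneg hL1]
  rw [← hl]
  have hx0 : 0 < x := by linarith
  have hab : 0 < la * lb := mul_pos hla0 hlb0
  obtain ⟨T, hT⟩ : ∃ T : ℝ, T = L - C₄ * l := ⟨_, rfl⟩
  have hmain : L ^ 2 / (la * lb) - 2 * C₄ / (la * lb) * (L * l) = (L ^ 2 - 2 * C₄ * (L * l)) / (la * lb) := by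
    ring
  rw [hmain]
  rcases lt_or_ge T 0 with hT0 | hT0
  · refine le_trans ?_ (Nat.cast_nonneg _)
    apply div_nonpos_of_nonpos_of_nonneg _ hab.le
    have h1 : L < C₄ * l := by linarith
    have h2 : 0 ≤ C₄ * l * L := by positivity
    nlinarith
  -- the box
  have hlog2 : Real.log 2 ≤ 1 := by
    have := Real.log_two_lt_d9
    linarith
  have hsub : ((Finset.range (⌊T / la⌋₊ + 1) ×ˢ Finset.range (⌊T / lb⌋₊ + 1) : Finset (ℕ × ℕ)) :
      Set (ℕ × ℕ)) ⊆ pairs u β x := by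
    rintro ⟨n, m⟩ hp
    rw [Finset.mem_coe, Finset.mem_product, Finset.mem_range, Finset.mem_range] at hp
    obtain ⟨h1, h2⟩ := hp
    have h3 : (n : ℝ) ≤ T / la := by
      have : n ≤ ⌊T / la⌋₊ := Nat.lt_succ_iff.1 h1
      exact (Nat.cast_le.2 this).trans (Nat.floor_le (by positivity))
    have h4 : (m : ℝ) ≤ T / lb := by
      have : m ≤ ⌊T / lb⌋₊ := Nat.lt_succ_iff.1 h2
      exact (Nat.cast_le.2 this).trans (Nat.floor_le (by positivity))
    rw [le_div_iff₀ hla0] at h3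
    rw [le_div_iff₀ hlb0] at h4
    have hn0 : (0 : ℝ) ≤ n := Nat.cast_nonneg n
    have hTL : T ≤ L := by
      rw [hT]
      have : 0 ≤ C₄ * l := by positivity
      linarith
    -- the power
    have hm : ‖β‖ ^ m ≤ x / 2 := by
      have h5 : Real.log (‖β‖ ^ m) ≤ Real.log (x / 2) := by
        rw [Real.log_pow, Real.log_div hx0.ne' (by norm_num), ← hL, ← hlb]
        have : 1 ≤ C₄ * l := by nlinarith
        linarith
      exact (Real.log_le_log_iff (by positivity) (by positivity)).1 h5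
    -- the sequence
    have hlogn : Real.log ((n : ℝ) + 2) ≤ C₅ + Real.log L := by
      have h5 : (n : ℝ) + 2 ≤ (1 / la + 2) * L := by
        have h6 : (n : ℝ) ≤ 1 / la * L := by
          rw [one_div, inv_mul_eq_div, le_div_iff₀ hla0]
          linarith
        nlinarith
      have h7 := Real.log_le_log (by positivity) h5
      rw [Real.log_mul (by positivity) (by linarith), ← hC₅] at h7
      exact h7
    have hn : ‖u n‖ ≤ x / 2 := by
      rcases eq_or_lt_of_le (norm_nonneg (u n)) with h0 | h0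
      · rw [← h0]; positivity
      · have h5 : Real.log ‖u n‖ ≤ Real.log (x / 2) := by
          rw [Real.log_div hx0.ne' (by norm_num), ← hL]
          have h6 := (abs_le.1 (hu n)).2
          have h7 := mul_le_mul_of_nonneg_left hlogn hB
          have h8 : B * (C₅ + Real.log L) ≤ C₄ * l - 1 := by
            have h9 : 0 ≤ Real.log L := Real.log_nonneg hL1
            have h10 : 0 ≤ B * C₅ * Real.log L := by positivity
            rw [hC₄, hl]
            nlinarith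
          linarith
        exact (Real.log_le_log_iff h0 (by positivity)).1 h5
    change ‖u n - β ^ m‖ ≤ x
    refine (norm_sub_le _ _).trans ?_
    rw [norm_pow]
    linarith
  have hcard : T / la * (T / lb) ≤ ((pairs u β x).ncard : ℝ) := by
    have h1 := Set.ncard_le_ncard hsub hfin
    rw [Set.ncard_coe_finset, Finset.card_product, Finset.card_range, Finset.card_range] at h1
    have h2 : ((⌊T / la⌋₊ : ℝ) + 1) * ((⌊T / lb⌋₊ : ℝ) + 1) ≤ ((pairs u β x).ncard : ℝ) := by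
      exact_mod_cast h1
    refine le_trans ?_ h2
    exact mul_le_mul (Nat.lt_floor_add_one _).le (Nat.lt_floor_add_one _).le (by positivity)
      (by positivity)
  refine le_trans ?_ hcard
  have h1 : T / la * (T / lb) = T ^ 2 / (la * lb) := by
    field_simp
  rw [h1]
  apply div_le_div_of_nonneg_right _ hab.le
  rw [hT]
  have : 0 ≤ (C₄ * l) ^ 2 := sq_nonneg _
  nlinarith

end Pool.Agent.X123.NC
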