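import Pool.Agent.X123.ML.Base

/-!
# Complex numbers `β` whose powers come close to a given sequence have dimension zero
-/

set_option autoImplicit false

namespace Pool.Agent.X123.NC

open Pool.Agent.X123.ML

/-- `(n, m, ζ)` with `ζ ^ m = u n` -/
def A (u : ℕ → ℂ) : Set (ℕ × ℕ × ℂ) := {p | p.2.2 ^ p.2.1 = u p.1 ∧ 1 ≤ p.2.1}

noncomputable def w (p : ℕ × ℕ × ℂ) : ℝ := Real.log ((p.1 : ℝ) + p.2.1 + 1)

theorem w_nonneg (p : ℕ × ℕ × ℂ) : 0 ≤ w p := by
  apply Real.log_nonneg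
  have h1 : (0 : ℝ) ≤ p.1 := Nat.cast_nonneg _
  have h2 : (0 : ℝ) ≤ p.2.1 := Nat.cast_nonneg _
  linarith

theorem count (u : ℕ → ℂ) : Cnt (A u) w 3 := by
  classical
  intro δ hδ
  refine ⟨1, fun t ht => ?_⟩
  obtain ⟨N, hN⟩ : ∃ N : ℕ, N = ⌊Real.exp t⌋₊ := ⟨_, rfl⟩
  have hNt : (N : ℝ) ≤ Real.exp t := by rw [hN]; exact Nat.floor_le (Real.exp_pos t).le
  obtain ⟨F, hF⟩ : ∃ F : Finset (ℕ × ℕ × ℂ), F = (Finset.range N ×ˢ Finset.range N).biUnion
      fun q => (Polynomial.nthRoots q.2 (u q.1)).toFinset.image fun ζ => (q.1, q.2, ζ) := ⟨_, rfl⟩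
  have hsub : {x | x ∈ A u ∧ w x ≤ t} ⊆ (F : Set (ℕ × ℕ × ℂ)) := by
    rintro ⟨n, m, ζ⟩ ⟨⟨h1, h2⟩, h3⟩
    have h4 : ((n : ℝ) + m + 1) ≤ Real.exp t := by
      have h5 : (0 : ℝ) < (n : ℝ) + m + 1 := by positivity
      exact (Real.log_le_iff_le_exp h5).1 h3
    have h6 : n + m + 1 ≤ N := by
      rw [hN]
      apply Nat.le_floor
      push_cast
      exact h4
    rw [hF, Finset.mem_coe, Finset.mem_biUnion]
    refine ⟨(n, m), ?_, ?_⟩
    · rw [Finset.mem_product, Finset.mem_range, Finset.mem_range]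
      constructor
      · change n < N
        omega
      · change m < N
        omega
    · rw [Finset.mem_image]
      refine ⟨ζ, ?_, rfl⟩
      rw [Multiset.mem_toFinset, Polynomial.mem_nthRoots (by exact h2)]
      exact h1
  have hcard : F.card ≤ N ^ 3 := by
    rw [hF]
    refine Finset.card_biUnion_le.trans ?_
    have h1 : ∀ q ∈ Finset.range N ×ˢ Finset.range N,
        ((Polynomial.nthRoots q.2 (u q.1)).toFinset.image fun ζ => (q.1, q.2, ζ)).card ≤ N := by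
      intro q hq
      rw [Finset.mem_product, Finset.mem_range, Finset.mem_range] at hq
      exact Finset.card_image_le.trans ((Multiset.toFinset_card_le _).trans
        ((Polynomial.card_nthRoots _ _).trans hq.2.le))
    refine (Finset.sum_le_card_nsmul _ _ _ h1).trans ?_
    rw [Finset.card_product, Finset.card_range, smul_eq_mul]
    exact le_of_eq (by ring)
  refine ⟨F.finite_toSet.subset hsub, ?_⟩
  have h2 : ({x | x ∈ A u ∧ w x ≤ t}.ncard : ℝ) ≤ (N : ℝ) ^ 3 := by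
    have h3 := Set.ncard_le_ncard hsub F.finite_toSet
    rw [Set.ncard_coe_finset] at h3
    exact_mod_cast h3.trans hcard
  refine h2.trans ?_
  rw [one_mul]
  have h3 : (N : ℝ) ^ 3 ≤ (Real.exp t) ^ 3 := pow_le_pow_left₀ (Nat.cast_nonneg _) hNt 3
  have h4 : (Real.exp t) ^ 3 = Real.exp (3 * t) := by
    rw [← Real.exp_nat_mul]
    norm_num
  rw [h4] at h3
  refine h3.trans (Real.exp_le_exp.2 ?_)
  nlinarith

/-- the numbers close to infinitely many roots -/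
def bad (u : ℕ → ℂ) (k : ℕ) : Set ℂ :=
  {β | {p | p ∈ A u ∧ dist β p.2.2 ≤ Real.exp (-(((k : ℝ) + 1) * w p))}.Infinite}

theorem dim_bad (u : ℕ → ℂ) (k : ℕ) : dimH (bad u k) ≤ ENNReal.ofReal (3 / ((k : ℝ) + 1)) :=
  dim_le (A u) w (fun p _ => w_nonneg p) (by norm_num) (by positivity) (count u) (fun p => p.2.2)

/-- the exceptional set -/
def exc (u : ℕ → ℂ) : Set ℂ := ⋂ k, bad u k

theorem dim_exc (u : ℕ → ℂ) : dimH (exc u) = 0 := by
  rw [← nonpos_iff_eq_zero]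
  have hlim : Filter.Tendsto (fun k : ℕ => ENNReal.ofReal (3 / ((k : ℝ) + 1))) Filter.atTop
      (nhds 0) := by
    rw [← ENNReal.ofReal_zero]
    apply ENNReal.tendsto_ofReal
    have h1 := (tendsto_one_div_add_atTop_nhds_zero_nat (𝕜 := ℝ)).const_mul 3
    rw [mul_zero] at h1
    refine h1.congr fun k => ?_
    ring
  refine ge_of_tendsto hlim (Filter.Eventually.of_forall fun k => ?_)
  exact (dimH_mono (Set.iInter_subset _ k)).trans (dim_bad u k)

/-- outside the bad set the powers of `β` are not close to the sequence -/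
theorem not_near {u : ℕ → ℂ} {β : ℂ} (hβ : 1 < ‖β‖) {k : ℕ} (h : β ∉ bad u k) :
    ∃ M : ℕ, ∀ n m : ℕ, M ≤ n + m → 1 ≤ m →
      ‖β‖ ^ m ≤ ‖u n - β ^ m‖ * ((n : ℝ) + m + 1) ^ (k + 2) := by
  classical
  have hfin : {p | p ∈ A u ∧ dist β p.2.2 ≤ Real.exp (-(((k : ℝ) + 1) * w p))}.Finite := by
    by_contra hcon
    exact h hcon
  obtain ⟨M₁, hM₁⟩ := (hfin.image (fun p : ℕ × ℕ × ℂ => p.1 + p.2.1)).bddAbove
  refine ⟨max (M₁ + 1) ⌈3 * ‖β‖⌉₊, fun n m hnm hm => ?_⟩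
  by_contra hcon
  push Not at hcon
  have hβ0 : β ≠ 0 := by
    intro h0
    rw [h0, norm_zero] at hβ
    linarith
  have hpow : 0 < ‖β‖ ^ m := by positivity
  obtain ⟨y, hy⟩ : ∃ y : ℝ, y = (n : ℝ) + m + 1 := ⟨_, rfl⟩
  have hy1 : 3 * ‖β‖ ≤ y := by
    have h1 := Nat.le_ceil (3 * ‖β‖)
    have h2 : ((⌈3 * ‖β‖⌉₊ : ℕ) : ℝ) ≤ ((n + m : ℕ) : ℝ) := by
      exact_mod_cast le_trans (le_max_right _ _) hnm
    push_cast at h2
    rw [hy]
    linarith
  have hy3 : 3 ≤ y := by linarith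
  have hy0 : 0 < y := by linarith
  rw [← hy] at hcon
  obtain ⟨z, hz⟩ : ∃ z : ℂ, z = u n / β ^ m - 1 := ⟨_, rfl⟩
  have hz1 : ‖z‖ * ‖β‖ ^ m = ‖u n - β ^ m‖ := by
    rw [hz, ← norm_pow, ← norm_mul, sub_mul, div_mul_cancel₀ _ (pow_ne_zero m hβ0), one_mul]
  have hz2 : ‖z‖ * y ^ (k + 2) < 1 := by
    rw [← hz1] at hcon
    by_contra h1
    push Not at h1
    have h2 := mul_le_mul_of_nonneg_left h1 hpow.le
    have h3 : ‖β‖ ^ m * (‖z‖ * y ^ (k + 2)) = ‖z‖ * ‖β‖ ^ m * y ^ (k + 2) := by ring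
    rw [h3] at h2
    linarith
  have hyk : y * y ^ (k + 1) = y ^ (k + 2) := by ring
  have hz3 : ‖z‖ * y < 1 := by
    have h1 : y ≤ y ^ (k + 2) := by
      calc y = y ^ 1 := (pow_one y).symm
        _ ≤ y ^ (k + 2) := pow_le_pow_right₀ (by linarith) (by omega)
    have h2 := mul_le_mul_of_nonneg_left h1 (norm_nonneg z)
    linarith
  have hz4 : ‖z‖ ≤ 1 / 3 := by
    have h1 := mul_le_mul_of_nonneg_left hy3 (norm_nonneg z)
    linarith
  have hne : 1 + z ≠ 0 := by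
    intro h0
    have h1 : z = -1 := by linear_combination h0
    rw [h1, norm_neg, norm_one] at hz4
    norm_num at hz4
  have hm0 : (m : ℂ) ≠ 0 := by
    have : m ≠ 0 := by omega
    exact_mod_cast this
  obtain ⟨ζ, hζ⟩ : ∃ ζ : ℂ, ζ = β * Complex.exp (Complex.log (1 + z) / m) := ⟨_, rfl⟩
  have hζ1 : ζ ^ m = u n := by
    rw [hζ, mul_pow, ← Complex.exp_nat_mul, mul_div_cancel₀ _ hm0, Complex.exp_log hne, hz]
    have := pow_ne_zero m hβ0
    field_simp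
    ring
  have hlog : ‖Complex.log (1 + z) / m‖ ≤ 3 / 2 * ‖z‖ := by
    rw [norm_div, Complex.norm_natCast]
    have h1 := Complex.norm_log_one_add_half_le_self (z := z) (by linarith)
    have h2 : (1 : ℝ) ≤ m := by exact_mod_cast hm
    refine le_trans (div_le_self (norm_nonneg _) h2) h1
  have hζ2 : dist β ζ ≤ 3 * ‖β‖ * ‖z‖ := by
    rw [dist_eq_norm, hζ]
    have h1 : β - β * Complex.exp (Complex.log (1 + z) / m) =
        -(β * (Complex.exp (Complex.log (1 + z) / m) - 1)) := by ring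
    rw [h1, norm_neg, norm_mul]
    have h2 := Complex.norm_exp_sub_one_le (x := Complex.log (1 + z) / m) (by linarith)
    have h3 : ‖Complex.exp (Complex.log (1 + z) / m) - 1‖ ≤ 3 * ‖z‖ := by linarith
    have h4 := mul_le_mul_of_nonneg_left h3 (norm_nonneg β)
    linarith
  have hmem : ((n, m, ζ) : ℕ × ℕ × ℂ) ∈
      {p : ℕ × ℕ × ℂ | p ∈ A u ∧ dist β p.2.2 ≤ Real.exp (-(((k : ℝ) + 1) * w p))} := by
    refine ⟨⟨hζ1, hm⟩, ?_⟩
    change dist β ζ ≤ Real.exp (-(((k : ℝ) + 1) * Real.log ((n : ℝ) + m + 1)))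
    rw [← hy]
    have h1 : Real.exp (-(((k : ℝ) + 1) * Real.log y)) = (y ^ (k + 1))⁻¹ := by
      rw [Real.exp_neg]
      congr 1
      have h2 : ((k : ℝ) + 1) * Real.log y = ((k + 1 : ℕ) : ℝ) * Real.log y := by push_cast; ring
      rw [h2, Real.exp_nat_mul, Real.exp_log hy0]
    rw [h1, ← one_div, le_div_iff₀ (by positivity)]
    have h3 : dist β ζ * y ^ (k + 1) ≤ 3 * ‖β‖ * ‖z‖ * y ^ (k + 1) :=
      mul_le_mul_of_nonneg_right hζ2 (by positivity)
    have h4 : 3 * ‖β‖ * ‖z‖ * y ^ (k + 1) ≤ y * ‖z‖ * y ^ (k + 1) := by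
      gcongr
    have h5 : y * ‖z‖ * y ^ (k + 1) = ‖z‖ * y ^ (k + 2) := by ring
    linarith
  have h5 := hM₁ ⟨(n, m, ζ), hmem, rfl⟩
  change n + m ≤ M₁ at h5
  have h6 := le_trans (le_max_left _ _) hnm
  omega

end Pool.Agent.X123.NC
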